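import Pool.Agent.W516.MT.Stmt

set_option autoImplicit false

namespace Pool.Agent.W405.MT

section

variable {k V Γ : Type} [Field k] [AddCommGroup V] [Module k V] [FiniteDimensional k V] [Group Γ]

/-- stable subspaces -/
def St (H : Submodule k (Module.End k V)) (U : Submodule k V) : Prop := ∀ X ∈ H, ∀ u ∈ U, X u ∈ U

/-- minimal stable subspaces -/
def Mn (H : Submodule k (Module.End k V)) (U : Submodule k V) : Prop :=
  U ≠ ⊥ ∧ St H U ∧ ∀ W ≤ U, St H W → W = ⊥ ∨ W = U

variable {H : Submodule k (Module.End k V)}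

omit [FiniteDimensional k V] in
lemma st_iff {U : Submodule k V} : St H U ↔ ∀ X ∈ H, U ≤ U.comap X := Iff.rfl

omit [FiniteDimensional k V] in
lemma st_sup {U U' : Submodule k V} (h : St H U) (h' : St H U') : St H (U ⊔ U') := by
  intro X hX
  have h1 : U ⊔ U' ≤ (U ⊔ U').comap X :=
    sup_le (fun u hu => Submodule.mem_sup_left (h X hX u hu))
      (fun u hu => Submodule.mem_sup_right (h' X hX u hu))
  exact h1

omit [FiniteDimensional k V] in
lemma st_inf {U U' : Submodule k V} (h : St H U) (h' : St H U') : St H (U ⊓ U') :=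
  fun X hX u hu => ⟨h X hX u hu.1, h' X hX u hu.2⟩

omit [FiniteDimensional k V] in
lemma st_sSup {s : Set (Submodule k V)} (h : ∀ U ∈ s, St H U) : St H (sSup s) := by
  intro X hX
  have h1 : sSup s ≤ (sSup s).comap X :=
    sSup_le fun U hU u hu => (le_sSup hU : U ≤ sSup s) (h U hU X hX u hu)
  exact h1

omit [FiniteDimensional k V] in
lemma st_bot : St H ⊥ := by
  intro X _ u hu
  rw [Submodule.mem_bot] at hu ⊢
  rw [hu, map_zero]

lemma exists_mn {U : Submodule k V} (hU : U ≠ ⊥) (h : St H U) : ∃ W ≤ U, Mn H W := by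
  obtain ⟨W, ⟨hW1, hW2, hW3⟩, hmin⟩ :=
    (wellFounded_lt (α := Submodule k V)).has_min {W | W ≤ U ∧ W ≠ ⊥ ∧ St H W} ⟨U, le_rfl, hU, h⟩
  refine ⟨W, hW1, hW2, hW3, fun W' hW' hst => ?_⟩
  by_cases hb : W' = ⊥
  · exact Or.inl hb
  · right
    by_contra hne
    exact hmin W' ⟨hW'.trans hW1, hb, hst⟩ (lt_of_le_of_ne hW' hne)

omit [FiniteDimensional k V] in
lemma rho_mul (ρ : Γ →* Module.End k V) (s : Γ) (v : V) : ρ s (ρ s⁻¹ v) = v := by
  rw [← Module.End.mul_apply, ← map_mul, mul_inv_cancel, map_one, Module.End.one_apply]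

omit [FiniteDimensional k V] in
lemma rho_mul' (ρ : Γ →* Module.End k V) (s : Γ) (v : V) : ρ s⁻¹ (ρ s v) = v := by
  rw [← Module.End.mul_apply, ← map_mul, inv_mul_cancel, map_one, Module.End.one_apply]

omit [FiniteDimensional k V] in
lemma st_map (ρ : Γ →* Module.End k V) (hc : ∀ (s : Γ), ∀ X ∈ H, ρ s * X * ρ s⁻¹ ∈ H) (s : Γ)
    {U : Submodule k V} (h : St H U) : St H (U.map (ρ s)) := by
  rintro X hX _ ⟨u, hu, rfl⟩
  have h1 := hc s⁻¹ X hX
  rw [inv_inv] at h1
  refine ⟨_, h _ h1 u hu, ?_⟩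
  rw [Module.End.mul_apply, Module.End.mul_apply, rho_mul]

omit [FiniteDimensional k V] in
lemma map_map_rho (ρ : Γ →* Module.End k V) (s : Γ) (U : Submodule k V) :
    (U.map (ρ s⁻¹)).map (ρ s) = U := by
  ext v
  constructor
  · rintro ⟨_, ⟨u, hu, rfl⟩, rfl⟩
    rw [rho_mul]
    exact hu
  · intro hv
    exact ⟨_, ⟨v, hv, rfl⟩, rho_mul ρ s v⟩

omit [FiniteDimensional k V] in
lemma map_map_rho' (ρ : Γ →* Module.End k V) (s : Γ) (U : Submodule k V) :
    (U.map (ρ s)).map (ρ s⁻¹) = U := by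
  have := map_map_rho ρ s⁻¹ U
  rwa [inv_inv] at this

omit [FiniteDimensional k V] in
lemma mn_map (ρ : Γ →* Module.End k V) (hc : ∀ (s : Γ), ∀ X ∈ H, ρ s * X * ρ s⁻¹ ∈ H) (s : Γ)
    {U : Submodule k V} (h : Mn H U) : Mn H (U.map (ρ s)) := by
  refine ⟨?_, st_map ρ hc s h.2.1, ?_⟩
  · intro hb
    apply h.1
    rw [← map_map_rho' ρ s U, hb, Submodule.map_bot]
  · intro W hW hst
    have h1 : W.map (ρ s⁻¹) ≤ U := by
      calc W.map (ρ s⁻¹) ≤ (U.map (ρ s)).map (ρ s⁻¹) := Submodule.map_mono hW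
        _ = U := map_map_rho' ρ s U
    rcases h.2.2 _ h1 (st_map ρ hc s⁻¹ hst) with h2 | h2
    · left
      rw [← map_map_rho ρ s W, h2, Submodule.map_bot]
    · right
      rw [← map_map_rho ρ s W, h2]

end

theorem T_SEMI : Pool.Agent.W516.MTS.S_SEMI := by
  intro k V Γ _ _ _ _ _ ρ H hc hss hcom
  -- the socle
  set S : Submodule k V := sSup {W | Mn H W} with hS
  have hSst : ∀ s, ∀ u ∈ S, ρ s u ∈ S := by
    intro s
    have h1 : S ≤ S.comap (ρ s) := by
      refine sSup_le fun W hW => ?_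
      rw [← Submodule.map_le_iff_le_comap]
      exact le_sSup (show Mn H _ from mn_map ρ hc s hW)
    exact h1
  obtain ⟨S', hS'st, hcompl⟩ := hss S hSst
  -- the projection
  set P : Module.End k V := S.projection S' hcompl with hP
  have hPS : ∀ v ∈ S, P v = v := fun v hv => Submodule.projection_apply_of_mem_left hcompl hv
  have hPS' : ∀ v ∈ S', P v = 0 := fun v hv => Submodule.projection_apply_of_mem_right hcompl hv
  have hPcomm : ∀ s, P * ρ s = ρ s * P := by
    intro s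
    ext v
    obtain ⟨a, ha, b, hb, rfl⟩ := Submodule.mem_sup.mp
      (show v ∈ S ⊔ S' by rw [hcompl.sup_eq_top]; trivial)
    rw [Module.End.mul_apply, Module.End.mul_apply, map_add, map_add, map_add, map_add,
      hPS a ha, hPS' b hb, hPS _ (hSst s a ha), hPS' _ (hS'st s b hb), map_zero]
  have hXP := hcom P hPcomm
  have hS'H : St H S' := by
    intro X hX u hu
    rw [← Submodule.projection_apply_eq_zero_iff hcompl]
    have h1 := LinearMap.congr_fun (hXP X hX) u
    rw [Module.End.mul_apply, Module.End.mul_apply, hPS' u hu, map_zero] at h1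
    exact h1.symm
  have hS'bot : S' = ⊥ := by
    by_contra hne
    obtain ⟨W, hW, hmn⟩ := exists_mn hne hS'H
    have h1 : W ≤ S := le_sSup (show Mn H W from hmn)
    apply hmn.1
    rw [eq_bot_iff]
    exact (le_inf h1 hW).trans (hcompl.inf_eq_bot).le
  have hStop : S = ⊤ := by
    have := hcompl.sup_eq_top
    rwa [hS'bot, sup_bot_eq] at this
  -- complements
  intro U hU
  obtain ⟨U', ⟨hU'st, hdis⟩, hmax⟩ :=
    (wellFounded_gt (α := Submodule k V)).has_min {W | St H W ∧ Disjoint U W}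
      ⟨⊥, st_bot, disjoint_bot_right⟩
  refine ⟨U', hU'st, hdis, ?_⟩
  rw [codisjoint_iff]
  by_contra hne
  have h1 : ∃ L, Mn H L ∧ ¬ L ≤ U ⊔ U' := by
    by_contra hcon
    push Not at hcon
    apply hne
    rw [eq_top_iff, ← hStop, hS]
    exact sSup_le fun L hL => hcon L hL
  obtain ⟨L, hL, hnot⟩ := h1
  have h2 : Disjoint (U ⊔ U') L := by
    rcases hL.2.2 ((U ⊔ U') ⊓ L) inf_le_right (st_inf (st_sup hU hU'st) hL.2.1) with h | h
    · exact disjoint_iff.mpr h
    · exact absurd (h ▸ inf_le_left) hnot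
  have h3 : Disjoint U (U' ⊔ L) := hdis.disjoint_sup_right_of_disjoint_sup_left h2
  refine hmax (U' ⊔ L) ⟨st_sup hU'st hL.2.1, h3⟩ ?_
  refine lt_of_le_of_ne le_sup_left ?_
  intro he
  apply hnot
  have h4 : L ≤ U' := by
    rw [he]; exact le_sup_right
  exact h4.trans le_sup_right

end Pool.Agent.W405.MT
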